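import Pool.Agent.Helper119.MD.Final

/-! MP_337c4e_co: the non-symmetric matroidal parameter sets with `λ = 3, 4, 5, 6`. -/

namespace Pool.Agent.Results.MP_337c4e_co.LambdaUpToSix

open Pool.Agent.Helper119.MD

theorem result (b v r k lam : ℕ) (h3 : 3 ≤ lam) (h6 : lam ≤ 6) (hb : v < b)
    (h : Matroidal b v r k lam) :
    (b, v, r, k, lam) ∈ ({(10, 5, 6, 3, 3), (14, 8, 7, 4, 3),
      (20, 6, 10, 3, 4), (30, 10, 12, 4, 4), (39, 27, 13, 9, 4), (35, 7, 15, 3, 5),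
      (68, 17, 20, 5, 5), (77, 22, 21, 6, 5), (84, 64, 21, 16, 5), (15, 6, 10, 4, 6),
      (56, 8, 21, 3, 6), (91, 14, 26, 4, 6), (130, 26, 30, 6, 6), (155, 125, 31, 25, 6)} :
        Finset (ℕ × ℕ × ℕ × ℕ × ℕ)) := by
  obtain ⟨M, Bl, hE, hBl, hc, hk, hr, hl⟩ := h
  have hd := hd_of_matroid hE hBl hk hr hl
  have := hd.classify (by rw [Fintype.card_fin, hc]; exact hb) h3 h6
  rw [Fintype.card_fin, hc] at this
  exact this

end Pool.Agent.Results.MP_337c4e_co.LambdaUpToSix
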